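import Pool.Agent.Y297.EulerLM

/-!
# Euler: conditions at one point of maximal vorticity, at the rate `1 / ((T - t) log (1 / (T - t)))`

Let `(u, p)` be a `C²` periodic solution of the Euler equations on `[0, T)`. Suppose that for almost
every `t` near `T` there is ONE point `x` of maximal vorticity where at least one of the following
holds (which one may depend on `t`):
* the vorticity is at most `(T - t) ^ (-θ)`, `θ < 1`;
* near `x` the direction of the vorticity varies on the length scale `1 / G(t)`, on which the
  velocity varies by at most `U(t)`, and `U G ≤ c / ((T - t) log (1 / (T - t))) + w(t)`;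
* the second singular value of `∇u(t, x)` is at most `θ / (2 (T - t)) + w(t)`
  (`∇u(t, x)` is close to the gradient of a simple shear flow);
here `c > 0` is an absolute constant and `w ≥ 0` any integrable function. Then the vorticity is at
most `(T - t) ^ (-θ')` near `T` for every `θ' > θ`, and there is no singularity at the time `T`.

The Constantin-Fefferman-Majda criterion is a condition of the second kind in a whole region of
large vorticity, with bounded `U` and square integrable `G`.
-/

open MeasureTheory Set
open scoped ENNReal Topology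

namespace Pool.Agent.Results.MP_b0497c_an.DirectionAndShear

open Pool.Agent.H708R2.EulerSign Pool.Agent.H708R2.EulerTypeI Pool.Agent.W786.Sv
  Pool.Agent.W786.Dir Pool.Agent.Y297.EulerLL

/-- There is an absolute constant `c > 0` such that the following holds for every `C²` periodic
solution `(u, p)` of the Euler equations on `[0, T)`, all functions `G`, `U`, every integrable
function `w ≥ 0` and every `θ` with `0 ≤ θ < 1`. If for almost every `t` near `T` there is a point
`x` of maximal vorticity with `|ω(t, x)| ≤ (T - t) ^ (-θ)`, or near which the vorticity is regularly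
directed at the length scale `1 / G(t)` with velocity variation `U(t)`, where
`U G ≤ c / ((T - t) log (1 / (T - t))) + w`, or at which the second singular value of `∇u(t, x)` is
at most `θ / (2 (T - t)) + w(t)`, then for every `θ' > θ` the vorticity is at most
`(T - t) ^ (-θ')` for all `t` near `T`, and the Beale-Kato-Majda integral is finite. -/
theorem result :
    ∃ c : ℝ, 0 < c ∧ ∀ (T θ : ℝ) (u : ℝ → V → V) (p : ℝ → V → ℝ) (w G U : ℝ → ℝ),
      0 < T → 0 ≤ θ → θ < 1 → IsC2Solution T u p →
      (∀ t, 0 ≤ w t) → IntegrableOn w (Ioo 0 T) →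
      (∃ τ < T, ∀ᵐ t, t ∈ Ioo τ T → ∃ x : V,
        (∀ y, nrm (vort (u t) y) ≤ nrm (vort (u t) x)) ∧
        (nrm (vort (u t) x) ≤ (T - t) ^ (-θ) ∨
          (0 < G t ∧ Directed (u t) x (G t) (U t) ∧
            U t * G t ≤ c / ((T - t) * Real.log (1 / (T - t))) + w t) ∨
          MidLE (grad (u t) x) (θ / (2 * (T - t)) + w t))) →
      (∀ θ' > θ, ∀ᶠ t in 𝓝[<] T, ∀ x, nrm (vort (u t) x) ≤ (T - t) ^ (-θ')) ∧
      BKMFinite T u := by
  refine ⟨1 / (2 * Cst), by have := Cst_pos; positivity, ?_⟩
  intro T θ u p w G U hT hθ hθ1 h hw hwi hyp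
  obtain ⟨τ, hτ, hyp⟩ := hyp
  have h1 : ∀ θ' > θ, ∀ᶠ t in 𝓝[<] T, ∀ x, nrm (vort (u t) x) ≤ (T - t) ^ (-θ') :=
    fun θ' hθ' => main_rate hT h hθ hθ' hw hwi hτ hyp
  refine ⟨h1, main_bkm hT h (θ' := (θ + 1) / 2) (by linarith) (by linarith) (h1 _ ?_)⟩
  show θ < (θ + 1) / 2
  linarith

end Pool.Agent.Results.MP_b0497c_an.DirectionAndShear
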